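import Mathlib

namespace Pool.Agent.H.MP_56d54d_al

/-- Left and right noetherian. -/
def Noeth (A : Type) [Ring A] : Prop := IsNoetherianRing A ∧ IsNoetherianRing Aᵐᵒᵖ

/-- Every finite subset lies in a noetherian subring. -/
def FNoeth (R : Type) [Ring R] : Prop :=
  ∀ A : Finset R, ∃ S : Subring R, (A : Set R) ⊆ S ∧ Noeth S

/-- The noetherian subrings can be chosen monotonically in the finite subset. -/
def DirFNoeth (R : Type) [Ring R] : Prop :=
  ∃ T : Finset R → Subring R, (∀ A : Finset R, (A : Set R) ⊆ T A ∧ Noeth (T A)) ∧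
    ∀ X Y : Finset R, X ⊆ Y → T X ≤ T Y

open AddSubgroup

theorem L1 {A F κ : Type} [Ring A] [Field F] [Finite κ] (ι : F →+* A) (x : κ → A)
    (h : ∀ a, a ∈ closure {y | ∃ c k, y = ι c * x k}) : IsNoetherianRing A := by
  letI : Module F A := Module.compHom A ι
  have hs : ∀ (c : F) (a : A), c • a = ι c * a := fun _ _ => rfl
  haveI : IsScalarTower F A A := ⟨fun c a b => by simp only [hs, smul_eq_mul, mul_assoc]⟩
  haveI : Module.Finite F A := by
    refine ⟨Submodule.fg_def.2 ⟨Set.range x, Set.finite_range x, top_le_iff.1 fun a _ => ?_⟩⟩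
    refine (closure_le (Submodule.span F (Set.range x)).toAddSubgroup).2 ?_ (h a)
    rintro _ ⟨c, k, rfl⟩
    exact Submodule.smul_mem (Submodule.span F (Set.range x)) c (Submodule.subset_span ⟨k, rfl⟩)
  exact IsNoetherianRing.of_finite F A

theorem L2 {R F κ : Type} [Ring R] [Field F] [Finite κ] (ι : F →+* R) (x : κ → R)
    (W : AddSubgroup R) (hW : W = closure {y | ∃ c k, y = ι c * x k})
    (h1 : ∀ k c, ∃ d, x k * ι c = ι d * x k) (h1' : ∀ k d, ∃ c, x k * ι c = ι d * x k)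
    (h2 : ∀ k l, x k * x l ∈ W) (h3 : 1 ∈ W) : ∃ S : Subring R, (S : Set R) = W ∧ Noeth S := by
  have g : ∀ c k, ι c * x k ∈ W := fun c k => hW ▸ subset_closure ⟨c, k, rfl⟩
  have a1 : ∀ c, ∀ w ∈ W, ι c * w ∈ W := fun c w hw => by
    rw [hW] at hw
    refine (closure_le (W.comap (AddMonoidHom.mulLeft (ι c)))).2 ?_ hw
    rintro _ ⟨d, k, rfl⟩
    show ι c * (ι d * x k) ∈ W
    rw [← mul_assoc, ← map_mul]; exact g _ _
  have a2 : ∀ v ∈ W, ∀ w ∈ W, v * w ∈ W := fun v hv w hw => by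
    rw [hW] at hv hw
    refine (closure_le (W.comap (AddMonoidHom.mulRight w))).2 ?_ hv
    rintro _ ⟨c, k, rfl⟩
    refine (closure_le (W.comap (AddMonoidHom.mulLeft (ι c * x k)))).2 ?_ hw
    rintro _ ⟨d, l, rfl⟩
    obtain ⟨e, he⟩ := h1 k d
    show ι c * x k * (ι d * x l) ∈ W
    rw [mul_assoc, ← mul_assoc (x k), he, mul_assoc]
    exact a1 _ _ (a1 _ _ (h2 _ _))
  let S : Subring R := { W with mul_mem' := fun {a b} ha hb => a2 a ha b hb, one_mem' := h3 }
  let ι' : F →+* S := ι.codRestrict S fun c => show ι c ∈ W by simpa using a1 c 1 h3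
  let x' : κ → S := fun k => ⟨x k, show x k ∈ W by simpa using g 1 k⟩
  have key : ∀ a : S, a ∈ closure {y | ∃ c k, y = ι' c * x' k} := by
    rintro ⟨a, ha⟩
    have ha' : a ∈ closure {y | ∃ c k, y = ι c * x k} := hW ▸ ha
    have : a ∈ (closure {y | ∃ c k, y = ι' c * x' k}).map S.subtype.toAddMonoidHom := by
      refine (closure_le _).2 ?_ ha'
      rintro _ ⟨c, k, rfl⟩
      exact ⟨ι' c * x' k, subset_closure ⟨c, k, rfl⟩, rfl⟩
    obtain ⟨b, hb, rfl⟩ := this
    exact hb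
  refine ⟨S, rfl, L1 ι' x' key, L1 (ι'.toOpposite fun a b => (Commute.all a b).map ι')
    (fun k => MulOpposite.op (x' k)) fun a => ?_⟩
  refine (closure_le ((AddSubgroup.closure _).comap
    (MulOpposite.opAddEquiv (α := S)).toAddMonoidHom)).2 ?_ (key a.unop)
  rintro _ ⟨d, k, rfl⟩
  obtain ⟨c, hc⟩ := h1' k d
  refine subset_closure ⟨c, k, ?_⟩
  show MulOpposite.op _ = MulOpposite.op (x' k * ι' c)
  congr 1
  exact Subtype.ext hc.symm

variable {K I : Type} [Field K]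

/-- The trivial extension of `K` by finitely-levelled functions on `I`, twisted on the right. -/
@[ext] structure TR (ρ : I → K →+* K) (lv : I → ℕ) where
  a : K
  f : I → K
  fin : ∃ M, ∀ i, M < lv i → f i = 0

variable {ρ : I → K →+* K} {lv : I → ℕ}

instance : Add (TR ρ lv) := ⟨fun r s => ⟨r.a + s.a, fun i => r.f i + s.f i, by
  obtain ⟨M, hM⟩ := r.fin
  obtain ⟨N, hN⟩ := s.fin
  exact ⟨M + N, fun i h => by rw [hM i (by omega), hN i (by omega), add_zero]⟩⟩⟩
instance : Mul (TR ρ lv) := ⟨fun r s => ⟨r.a * s.a, fun i => r.a * s.f i + r.f i * ρ i s.a, by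
  obtain ⟨M, hM⟩ := r.fin
  obtain ⟨N, hN⟩ := s.fin
  exact ⟨M + N, fun i h => by rw [hM i (by omega), hN i (by omega)]; simp⟩⟩⟩
instance : Neg (TR ρ lv) := ⟨fun r => ⟨-r.a, fun i => -r.f i, by
  obtain ⟨M, hM⟩ := r.fin
  exact ⟨M, fun i h => by rw [hM i h, neg_zero]⟩⟩⟩
instance : Zero (TR ρ lv) := ⟨⟨0, fun _ => 0, 0, fun _ _ => rfl⟩⟩
instance : One (TR ρ lv) := ⟨⟨1, fun _ => 0, 0, fun _ _ => rfl⟩⟩

@[simp] theorem add_a (r s : TR ρ lv) : (r + s).a = r.a + s.a := rfl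
@[simp] theorem add_f (r s : TR ρ lv) (i) : (r + s).f i = r.f i + s.f i := rfl
@[simp] theorem mul_a (r s : TR ρ lv) : (r * s).a = r.a * s.a := rfl
@[simp] theorem mul_f (r s : TR ρ lv) (i) : (r * s).f i = r.a * s.f i + r.f i * ρ i s.a := rfl
@[simp] theorem neg_a (r : TR ρ lv) : (-r).a = -r.a := rfl
@[simp] theorem neg_f (r : TR ρ lv) (i) : (-r).f i = -r.f i := rfl
@[simp] theorem zero_a : (0 : TR ρ lv).a = 0 := rfl
@[simp] theorem zero_f (i) : (0 : TR ρ lv).f i = 0 := rfl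
@[simp] theorem one_a : (1 : TR ρ lv).a = 1 := rfl
@[simp] theorem one_f (i) : (1 : TR ρ lv).f i = 0 := rfl

instance : Ring (TR ρ lv) := Ring.ofMinimalAxioms
  (fun a b c => by ext <;> simp [add_assoc]) (fun a => by ext <;> simp)
  (fun a => by ext <;> simp) (fun a b c => by ext <;> simp <;> ring) (fun a => by ext <;> simp)
  (fun a => by ext <;> simp) (fun a b c => by ext <;> simp <;> ring)
  (fun a b c => by ext <;> simp <;> ring)

def inl : K →+* TR ρ lv where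
  toFun a := ⟨a, fun _ => 0, 0, fun _ _ => rfl⟩
  map_one' := rfl
  map_zero' := rfl
  map_mul' a b := by ext <;> simp
  map_add' a b := by ext <;> simp

@[simp] theorem inl_a (a : K) : (inl a : TR ρ lv).a = a := rfl
@[simp] theorem inl_f (a : K) (i) : (inl a : TR ρ lv).f i = 0 := rfl

def pr : TR ρ lv →+* K where
  toFun r := r.a
  map_one' := rfl
  map_zero' := rfl
  map_mul' _ _ := rfl
  map_add' _ _ := rfl

def cut (r : TR ρ lv) (s : Bool) : TR ρ lv :=
  ⟨0, fun i => if (lv i == 0) = s then r.f i else 0, by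
    obtain ⟨M, hM⟩ := r.fin
    exact ⟨M, fun i h => by simp [hM i h]⟩⟩

theorem fnoeth (σ : K →+* K) (h0 : ∀ i, lv i = 0 → ρ i = σ) (F : ℕ → Subfield K)
    (hF : ∀ M i, 0 < lv i → lv i ≤ M → ∀ c ∈ F M, ρ i c = c) (s1 : ∀ M, ∀ c ∈ F M, σ c ∈ F M)
    (s2 : ∀ M, ∀ d ∈ F M, ∃ c ∈ F M, σ c = d) (hi : ∀ M (a : K), IsIntegral (F M) a) :
    FNoeth (TR ρ lv) := by
  classical
  intro A
  choose m hm using fun r : TR ρ lv => r.fin
  let M := A.sup m
  let E := Algebra.adjoin (F M) ((A.image TR.a : Finset K) : Set K)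
  obtain ⟨β, hβ⟩ : E.toSubmodule.FG := fg_adjoin_of_finite (Finset.finite_toSet _) fun a _ => hi M a
  let ι : F M →+* TR ρ lv := inl.comp (F M).subtype
  let x : β ⊕ (β × A × Bool × β) → TR ρ lv := Sum.elim (fun b => inl b.1)
    fun z => inl z.1.1 * cut z.2.1.1 z.2.2.1 * inl z.2.2.2.1
  set W := closure {y | ∃ c k, y = ι c * x k} with hW
  have n0 : ∀ (r : A) s (c d : F M), (if s then σ c.1 else c.1) = d.1 →
      cut r.1 s * ι c = ι d * cut r.1 s := by
    intro r s c d h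
    ext i
    · simp [cut]
    · simp only [mul_f, ι, RingHom.comp_apply, inl_f, inl_a, cut, mul_zero, zero_add, map_zero,
        add_zero, Subfield.coe_subtype, ← h]
      by_cases h1 : lv i = 0
      · cases s <;> simp [h1, h0 i h1, mul_comm]
      · by_cases h2 : lv i ≤ M
        · cases s <;> simp [h1, hF M i (Nat.pos_of_ne_zero h1) h2 c c.2, mul_comm]
        · simp [hm r.1 i ((Finset.le_sup (f := m) r.2).trans_lt (not_le.1 h2))]
  have n1 : ∀ (r : A) s (c : F M), ∃ d, cut r.1 s * ι c = ι d * cut r.1 s := fun r s c => by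
    cases s
    · exact ⟨c, n0 r _ c c rfl⟩
    · exact ⟨⟨σ c, s1 M c c.2⟩, n0 r _ c _ rfl⟩
  have n2 : ∀ (r : A) s (d : F M), ∃ c, cut r.1 s * ι c = ι d * cut r.1 s := fun r s d => by
    cases s
    · exact ⟨d, n0 r _ d d rfl⟩
    · obtain ⟨c, hc, e⟩ := s2 M d d.2
      exact ⟨⟨c, hc⟩, n0 r _ _ d e⟩
  have cm : ∀ (a : K) (c : F M), (inl a : TR ρ lv) * ι c = ι c * inl a := fun a c =>
    (Commute.all a c.1).map inl
  have n3 : ∀ (r : A) s (c d : F M) (a b : K), cut r.1 s * ι c = ι d * cut r.1 s →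
      inl a * cut r.1 s * inl b * ι c = ι d * (inl a * cut r.1 s * inl b) := by
    intro r s c d a b h
    rw [mul_assoc, cm, mul_assoc (inl a), ← mul_assoc (cut _ _), h, ← mul_assoc, ← mul_assoc, cm,
      mul_assoc, mul_assoc, mul_assoc]
  have g : ∀ k, x k ∈ W := fun k => subset_closure ⟨1, k, by simp⟩
  have a1 : ∀ c, ∀ w ∈ W, ι c * w ∈ W := fun c w hw => by
    refine (closure_le (W.comap (AddMonoidHom.mulLeft (ι c)))).2 ?_ hw
    rintro _ ⟨d, k, rfl⟩
    show ι c * (ι d * x k) ∈ W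
    rw [← mul_assoc, ← map_mul]; exact subset_closure ⟨_, _, rfl⟩
  have sm : ∀ (c : F M) (a : K), (inl (c • a) : TR ρ lv) = ι c * inl a := fun c a =>
    map_mul inl c.1 a
  have ind : ∀ P : K → TR ρ lv, P 0 = 0 → (∀ a b, P (a + b) = P a + P b) →
      (∀ (c : F M) a, ∃ d, P (c • a) = ι d * P a) → (∀ b : β, P b ∈ W) → ∀ e ∈ E, P e ∈ W := by
    intro P p0 p1 p2 p3 e he
    replace he : e ∈ Submodule.span (F M) (β : Set K) := hβ ▸ he
    induction he using Submodule.span_induction with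
    | mem b hb => exact p3 ⟨b, hb⟩
    | zero => rw [p0]; exact W.zero_mem
    | add a b _ _ ha hb => rw [p1]; exact W.add_mem ha hb
    | smul c a _ ha => obtain ⟨d, hd⟩ := p2 c a; rw [hd]; exact a1 _ _ ha
  have e1 : ∀ e ∈ E, inl e ∈ W := ind inl (map_zero _) (map_add _) (fun c a => ⟨c, sm c a⟩)
    fun b => g (.inl b)
  have e2 : ∀ (r : A) s, ∀ e ∈ E, ∀ e' ∈ E, inl e * cut r.1 s * inl e' ∈ W := by
    intro r s e he
    refine ind _ (by simp) (fun a b => by rw [map_add, mul_add]) (fun c a => ?_) fun b => ?_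
    · obtain ⟨d, hd⟩ := n1 r s c
      exact ⟨d, by rw [sm, ← cm, ← mul_assoc, n3 r s c d e a hd]⟩
    · refine ind (fun e => inl e * cut r.1 s * inl b.1) (by simp)
        (fun a b => by rw [map_add, add_mul, add_mul]) (fun c a => ⟨c, ?_⟩)
        (fun a => g (.inr (a, r, s, b))) e he
      simp only [sm, mul_assoc]
  have hb : ∀ b : β, b.1 ∈ E := fun b => show b.1 ∈ E.toSubmodule from
    hβ ▸ Submodule.subset_span b.2
  refine (L2 ι x W hW ?_ ?_ ?_ (e1 1 E.one_mem)).imp fun S ⟨hS, hN⟩ => ⟨fun r hr => ?_, hN⟩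
  rotate_right
  · skip
    rw [hS]
    have : r = inl r.a + (inl 1 * cut r true * inl 1 + inl 1 * cut r false * inl 1) := by
      ext i
      · simp [cut]
      · by_cases h : lv i = 0 <;> simp [cut, h]
    rw [this]
    exact W.add_mem (e1 _ (Algebra.subset_adjoin (by simp; exact ⟨r, hr, rfl⟩)))
      (W.add_mem (e2 ⟨r, hr⟩ _ _ E.one_mem _ E.one_mem) (e2 ⟨r, hr⟩ _ _ E.one_mem _ E.one_mem))
  · rintro (b | ⟨a, r, s, b⟩) c
    · exact ⟨c, cm _ _⟩
    · obtain ⟨d, hd⟩ := n1 r s c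
      exact ⟨d, n3 r s c d _ _ hd⟩
  · rintro (b | ⟨a, r, s, b⟩) d
    · exact ⟨d, cm _ _⟩
    · obtain ⟨c, hd⟩ := n2 r s d
      exact ⟨c, n3 r s c d _ _ hd⟩
  · rintro (b | ⟨a, r, s, b⟩) (b' | ⟨a', r', s', b'⟩)
    · simpa [x] using e1 _ (E.mul_mem (hb b) (hb b'))
    · simpa [x, mul_assoc] using e2 r' s' _ (E.mul_mem (hb b) (hb a')) _ (hb b')
    · simpa [x, mul_assoc] using e2 r s _ (hb a) _ (E.mul_mem (hb b) (hb b'))
    · convert W.zero_mem
      ext <;> simp [x, cut]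

end Pool.Agent.H.MP_56d54d_al
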