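import Pool.Agent.H.MP_56d54d_al.A

namespace Pool.Agent.H.MP_56d54d_al

open Submodule
open scoped Classical Pointwise

variable {K I : Type} [Field K] {ρ : I → K →+* K} {lv : I → ℕ}

theorem fg (N : Subring (TR ρ lv)) [IsNoetherianRing N] {g : TR ρ lv} (hg : g ∈ N) (g0 : g.a = 0) :
    ∃ C : Finset (I → K), ∀ a ∈ N.map pr,
      (fun i => g.f i * ρ i a) ∈ span (N.map pr) (C : Set (I → K)) := by
  let J : Ideal N := RingHom.ker (pr.comp N.subtype)
  obtain ⟨X, hX⟩ := IsNoetherian.noetherian J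
  refine ⟨X.image fun y => y.1.f, ?_⟩
  have key : ∀ y ∈ span N (X : Set N), y.1.f ∈ span (N.map pr)
      ((X.image fun y => y.1.f : Finset (I → K)) : Set (I → K)) := by
    intro y hy
    induction hy using span_induction with
    | mem b hb => exact subset_span (Finset.mem_coe.2 (Finset.mem_image_of_mem _ hb))
    | zero => exact zero_mem _
    | add a b _ _ ha hb => exact add_mem ha hb
    | smul c a h ha =>
      have a0 : a.1.a = 0 := (hX ▸ h : a ∈ J)
      convert smul_mem _ (⟨c.1.a, c.1, c.2, rfl⟩ : N.map pr) ha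
      ext i
      show c.1.a * a.1.f i + c.1.f i * ρ i a.1.a = c.1.a * a.1.f i
      simp [a0]
  rintro _ ⟨r, hr, rfl⟩
  have : (⟨g, hg⟩ * ⟨r, hr⟩ : N) ∈ J := show g.a * r.a = 0 by rw [g0, zero_mul]
  convert key _ (hX.symm ▸ this) using 1
  ext i
  show _ = g.a * r.f i + g.f i * ρ i r.a
  simp [g0, pr]

def lev (m : ℕ) : TR ρ lv :=
  ⟨0, fun i => if lv i = m then 1 else 0, m, fun i h => if_neg h.ne'⟩

theorem ndir (σ : K →+* K) (i0 : I) (l0 : lv i0 = 0) (h0 : ρ i0 = σ) (t : ℕ → K)
    (ht : ∀ n, σ (t n) = t (n + 1))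
    (hli : ∀ m J : ℕ, 0 < m → LinearIndependent K fun (e : Fin J → Fin m) (i : {i // lv i = m}) =>
      ρ i (∏ n : Fin J, t n ^ (e n : ℕ))) : ¬ DirFNoeth (TR ρ lv) := by
  rintro ⟨T, hT, mono⟩
  let A : Finset (TR ρ lv) := {inl (t 0), lev 0}
  set N0 := (T A).map pr
  have t0 : t 0 ∈ N0 := ⟨inl (t 0), (hT A).1 (by simp [A]), rfl⟩
  haveI := (hT A).2.1
  obtain ⟨C, hC⟩ := fg (T A) (g := lev 0) ((hT A).1 (by simp [A])) rfl
  let C0 := C.image fun f => f i0
  have c0 : ∀ a ∈ N0, σ a ∈ span N0 (C0 : Set K) := fun a ha => by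
    have := apply_mem_span_image_of_mem_span (LinearMap.proj (R := N0) (φ := fun _ => K) i0)
      (hC a ha)
    simpa [C0, lev, l0, h0] using this
  have step : ∀ J : ℕ, ∃ W : Finset K, W.card ≤ C0.card ^ J ∧
      ∀ e : Fin J → ℕ, ∏ n : Fin J, t n ^ e n ∈ span N0 (W : Set K) := by
    intro J
    induction J with
    | zero => exact ⟨{1}, by simp, fun e => subset_span (by simp)⟩
    | succ J ih =>
      obtain ⟨W, w1, w2⟩ := ih
      refine ⟨C0 * W.image σ, Finset.card_mul_le.trans ?_, fun e => ?_⟩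
      · rw [pow_succ']
        exact Nat.mul_le_mul_left _ (Finset.card_image_le.trans w1)
      · obtain ⟨c, -, hc⟩ := mem_span_finset.1 (w2 fun n => e n.succ)
        have e1 : ∏ n : Fin J, t n.succ ^ e n.succ = ∑ w ∈ W, σ (c w) * σ w := by
          have := congrArg σ hc
          simp only [map_sum, map_prod, map_pow, ht, Subring.smul_def, smul_eq_mul, map_mul] at this
          rw [this]; rfl
        rw [Fin.prod_univ_succ, e1]
        refine smul_mem _ (⟨t 0 ^ e 0, N0.pow_mem t0 _⟩ : N0) (sum_mem fun w hw => ?_)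
        rw [Finset.coe_mul, ← span_mul_span]
        exact mul_mem_mul (c0 _ (c w).2) (subset_span (by simpa using ⟨w, hw, rfl⟩))
  set m := 2 * (C0.card + 1) with hm
  let A' := insert (lev m) A
  haveI := (hT A').2.1
  obtain ⟨D, hD⟩ := fg (T A') (g := lev m) ((hT A').1 (by simp [A'])) rfl
  let ev : K →+* ({i // lv i = m} → K) := Pi.ringHom fun i => ρ i
  let D0 := D.image fun f (i : {i // lv i = m}) => f i
  have d0 : ∀ a ∈ N0, ev a ∈ span K (D0 : Set ({i // lv i = m} → K)) := fun a ha => by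
    obtain ⟨r, hr, rfl⟩ := ha
    have h1 := span_le_restrictScalars _ K _ (hD _ ⟨r, mono A A' (Finset.subset_insert _ _) hr, rfl⟩)
    have h2 := apply_mem_span_image_of_mem_span
      (LinearMap.funLeft K K (Subtype.val : {i // lv i = m} → I)) h1
    convert h2
    · simp [D0]; rfl
    · ext i
      simp [lev, i.2, LinearMap.funLeft_apply]; rfl
  obtain ⟨W, w1, w2⟩ := step D0.card
  have := linearIndependent_le_span_aux' _ (hli m D0.card (by omega))
    ((D0 * W.image ev : Finset _) : Set ({i // lv i = m} → K)) ?_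
  · simp only [Fintype.card_pi, Fintype.card_fin, Finset.prod_const, Finset.card_univ,
      Finset.coe_sort_coe, Fintype.card_coe] at this
    have h2 := this.trans (Finset.card_mul_le.trans
      (Nat.mul_le_mul_left _ (Finset.card_image_le.trans (w1.trans
        (Nat.pow_le_pow_left (Nat.le_succ _) _)))))
    rw [show m ^ D0.card = 2 ^ D0.card * (C0.card + 1) ^ D0.card from mul_pow _ _ _] at h2
    exact absurd (Nat.le_of_mul_le_mul_right h2 (by positivity)) (not_le.2 Nat.lt_two_pow_self)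
  · rintro _ ⟨e, rfl⟩
    obtain ⟨c, -, hc⟩ := mem_span_finset.1 (w2 fun n => e n)
    show ev (∏ n : Fin D0.card, t n ^ (e n : ℕ)) ∈ _
    rw [← hc, map_sum]
    refine sum_mem fun w hw => ?_
    rw [Finset.coe_mul, ← span_mul_span, Subring.smul_def, smul_eq_mul, map_mul]
    exact mul_mem_mul (d0 _ (c w).2) (subset_span (by simpa using ⟨w, hw, rfl⟩))

end Pool.Agent.H.MP_56d54d_al
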