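import Pool.Agent.H.MP_56d54d_al.B

namespace Pool.Agent.H.MP_56d54d_al

open MvPolynomial

abbrev P := MvPolynomial ℤ ℂ
abbrev KK := FractionRing P

noncomputable def tt (n : ℤ) : KK := algebraMap P KK (X n)
noncomputable def cc : ℂ →+* KK := (algebraMap P KK).comp C

theorem hext {f g : KK →+* KK} (h1 : ∀ c, f (cc c) = g (cc c)) (h2 : ∀ n, f (tt n) = g (tt n)) :
    f = g :=
  IsLocalization.ringHom_ext (nonZeroDivisors P) (MvPolynomial.ringHom_ext h1 h2)

noncomputable def sc (u : ℤ → ℂ) : P →ₐ[ℂ] P := aeval fun n => C (u n) * X n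

theorem sc_inj {u : ℤ → ℂ} (hu : ∀ n, u n ≠ 0) : Function.Injective (sc u) := by
  have : (sc fun n => (u n)⁻¹).comp (sc u) = AlgHom.id ℂ P := by
    ext n : 1
    simp only [sc, AlgHom.comp_apply, aeval_X, map_mul, aeval_C, algebraMap_eq, AlgHom.id_apply]
    rw [← mul_assoc, ← map_mul, mul_inv_cancel₀ (hu n), map_one, one_mul]
  exact Function.LeftInverse.injective (g := sc fun n => (u n)⁻¹) fun p => DFunLike.congr_fun this p

noncomputable def ex (f : P →ₐ[ℂ] P) (h : Function.Injective f) : KK →+* KK :=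
  IsFractionRing.lift (g := (algebraMap P KK).comp f.toRingHom)
    ((IsFractionRing.injective P KK).comp h)

theorem ex_a (f : P →ₐ[ℂ] P) (h) (p : P) : ex f h (algebraMap P KK p) = algebraMap P KK (f p) :=
  IsFractionRing.lift_algebraMap _ p

theorem ex_c (f : P →ₐ[ℂ] P) (h) (c : ℂ) : ex f h (cc c) = cc c :=
  (ex_a f h _).trans (congrArg _ (f.commutes c))

noncomputable def sh (k : ℤ) : KK →+* KK :=
  ex (rename (· + k)) (rename_injective _ (add_left_injective k))

theorem sh_t (k n : ℤ) : sh k (tt n) = tt (n + k) := (ex_a _ _ _).trans (by simp [tt])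

noncomputable def ze (m : ℕ) : ℂ := Complex.exp (2 * Real.pi * Complex.I / m)

noncomputable def rt (m : ℕ) (γ : ℤ → ℕ) : KK →+* KK :=
  ex (sc fun n => ze m ^ γ n) (sc_inj fun _ => pow_ne_zero _ (Complex.exp_ne_zero _))

theorem rt_t (m γ n) : rt m γ (tt n) = cc (ze m ^ γ n) * tt n :=
  (ex_a _ _ _).trans (by simp [tt, cc, sc])

theorem rt_sh (m γ k a) : rt m γ (sh k a) = sh k (rt m (fun n => γ (n + k)) a) := by
  have : (rt m γ).comp (sh k) = (sh k).comp (rt m fun n => γ (n + k)) :=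
    hext (fun c => by simp only [RingHom.comp_apply, rt, sh, ex_c]) fun n => by
      simp only [RingHom.comp_apply, sh_t, rt_t, map_mul]
      rw [sh, ex_c]
  exact DFunLike.congr_fun this a

noncomputable def rho (i : ℕ × (ℤ → ℕ)) : KK →+* KK := if i.1 = 0 then sh 1 else rt i.1 i.2

noncomputable def FF (M : ℕ) : Subfield KK :=
  ⨅ (m : ℕ) (γ : ℤ → ℕ) (_ : 0 < m ∧ m ≤ M), (rt m γ).eqLocusField (RingHom.id _)

theorem mem_FF {M a} : a ∈ FF M ↔ ∀ m γ, 0 < m ∧ m ≤ M → rt m γ a = a := by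
  simp only [FF, Subfield.mem_iInf]; rfl

theorem sh_FF (M k) : ∀ c ∈ FF M, sh k c ∈ FF M := fun c hc =>
  mem_FF.2 fun m γ h => by rw [rt_sh, mem_FF.1 hc _ _ h]

theorem FF_int (M) (a : KK) : IsIntegral (FF M) a := by
  have h : ∀ p : P, IsIntegral (FF M) (algebraMap P KK p) := by
    intro p
    induction p using MvPolynomial.induction_on with
    | C c => exact isIntegral_algebraMap (x := (⟨cc c, mem_FF.2 fun m γ _ => ex_c _ _ c⟩ : FF M))
    | add p q hp hq => rw [map_add]; exact hp.add hq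
    | mul_X p n hp =>
      rw [map_mul]
      refine hp.mul (IsIntegral.of_pow M.factorial_pos ?_)
      refine isIntegral_algebraMap (x := (⟨tt n ^ M.factorial, mem_FF.2 fun m γ h => ?_⟩ : FF M))
      have := (Complex.isPrimitiveRoot_exp m h.1.ne').pow_eq_one_iff_dvd M.factorial
      rw [map_pow, rt_t, mul_pow, ← map_pow, ← pow_mul, mul_comm (γ n), pow_mul,
        show ze m ^ M.factorial = 1 from this.2 (Nat.dvd_factorial h.1 h.2), one_pow, map_one,
        one_mul]
  obtain ⟨p, q, -, rfl⟩ := IsFractionRing.div_surjective (A := P) a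
  rw [div_eq_mul_inv]
  exact (h p).mul (h q).inv

theorem li (m J : ℕ) (hm : 0 < m) : LinearIndependent KK
    fun (e : Fin J → Fin m) (i : {i : ℕ × (ℤ → ℕ) // i.1 = m}) =>
      rho i (∏ n : Fin J, tt (n : ℕ) ^ (e n : ℕ)) := by
  let χ : (Fin J → Fin m) → Multiplicative (ℤ → ℕ) →* KK := fun e =>
    { toFun := fun γ => ∏ n : Fin J, cc (ze m ^ γ.toAdd (n : ℕ)) ^ (e n : ℕ)
      map_one' := by simp
      map_mul' := fun a b => by simp [pow_add, mul_pow, Finset.prod_mul_distrib] }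
  have hχ : Function.Injective χ := by
    intro e e' h
    ext n
    have := DFunLike.congr_fun h (Multiplicative.ofAdd (Pi.single ((n : ℕ) : ℤ) 1))
    have k : ∀ e : Fin J → Fin m, χ e (Multiplicative.ofAdd (Pi.single ((n : ℕ) : ℤ) 1)) =
        cc (ze m ^ (e n : ℕ)) := fun e => by
      simp only [χ, MonoidHom.coe_mk, OneHom.coe_mk, toAdd_ofAdd]
      rw [Finset.prod_eq_single n (fun b _ hb => by
        rw [Pi.single_eq_of_ne (by simpa [Fin.ext_iff] using hb)]; simp) (by simp)]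
      simp
    rw [k, k] at this
    exact (Complex.isPrimitiveRoot_exp m hm.ne').pow_inj (e n).2 (e' n).2 (cc.injective this)
  have t0 : ∀ e : Fin J → Fin m, ∏ n : Fin J, tt (n : ℕ) ^ (e n : ℕ) ≠ 0 := fun e =>
    Finset.prod_ne_zero_iff.2 fun n _ => pow_ne_zero _
      ((map_ne_zero_iff _ (IsFractionRing.injective P KK)).2 (X_ne_zero _))
  have h1 := ((linearIndependent_monoidHom _ KK).comp χ hχ).units_smul fun e => Units.mk0 _ (t0 e)
  refine LinearIndependent.of_comp (LinearMap.funLeft KK KK fun γ : Multiplicative (ℤ → ℕ) =>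
    (⟨(m, γ.toAdd), rfl⟩ : {i : ℕ × (ℤ → ℕ) // i.1 = m})) ?_
  convert h1
  rotate_left
  · rfl
  ext e γ
  simp [LinearMap.funLeft_apply, rho, hm.ne', rt_t, χ, mul_pow, Finset.prod_mul_distrib, mul_comm]

theorem main : FNoeth (TR rho Prod.fst) ∧ ¬ DirFNoeth (TR rho Prod.fst) := by
  refine ⟨fnoeth (sh 1) (fun i h => if_pos h) FF (fun M i h1 h2 c hc => ?_) (fun M => sh_FF M 1)
    (fun M d hd => ⟨sh (-1) d, sh_FF M _ d hd, ?_⟩) FF_int,
    ndir (sh 1) (0, 0) rfl (if_pos rfl) (fun n => tt n) (fun n => by rw [sh_t]; simp) li⟩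
  · rw [rho, if_neg h1.ne', mem_FF.1 hc _ _ ⟨h1, h2⟩]
  · have : (sh 1).comp (sh (-1)) = RingHom.id _ :=
      hext (fun c => by simp only [RingHom.comp_apply, sh, ex_c, RingHom.id_apply]) fun n => by
        simp [sh_t]
    exact DFunLike.congr_fun this d

end Pool.Agent.H.MP_56d54d_al
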